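import Pool.Agent.Q62.AV.All

/-!
# MP_966485_an: no averaged null control of random fractional heat equations for `γ ≤ 1/2`

Q1 is answered in the negative: for every bounded open `G ⊆ ℝⁿ`, every open `G₀ ⊆ G` such that
`G \ closure G₀` has an interior point, every `T > 0`, every random diffusivity `α ≥ 0` and every
exponent `γ ∈ (0, 1/2]` the equation `y' + α A^γ y = 1_{G₀} u` (`A` the Dirichlet Laplacian) is not
null controllable in average.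
-/

open MeasureTheory Filter Topology Set
open scoped ContDiff InnerProductSpace

namespace Pool.Agent.Results.MP_966485_an.NoAveragedControl

/-- `ℝⁿ` -/
abbrev Eu (n : ℕ) := EuclideanSpace ℝ (Fin n)

/-- Lebesgue measure on `G` -/
noncomputable def vol {n : ℕ} (G : Set (Eu n)) : Measure (Eu n) := volume.restrict G

/-- `L²(G)` -/
def HG {n : ℕ} (G : Set (Eu n)) : Type := Lp ℝ 2 (vol G)

noncomputable instance instN {n : ℕ} (G : Set (Eu n)) : NormedAddCommGroup (HG G) :=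
  (inferInstance : NormedAddCommGroup (Lp ℝ 2 (vol G)))

noncomputable instance instI {n : ℕ} (G : Set (Eu n)) : InnerProductSpace ℝ (HG G) :=
  (inferInstance : InnerProductSpace ℝ (Lp ℝ 2 (vol G)))

/-- an element of `L²(G)` as a function -/
noncomputable def fn {n : ℕ} {G : Set (Eu n)} (f : HG G) : Eu n → ℝ :=
  ((show Lp ℝ 2 (vol G) from f) : Eu n → ℝ)

/-- `C_c^∞(G)` -/
def TestIn {n : ℕ} (G : Set (Eu n)) (φ : Eu n → ℝ) : Prop :=
  ContDiff ℝ ∞ φ ∧ HasCompactSupport φ ∧ tsupport φ ⊆ G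

/-- `v ∈ H¹₀(G)` with gradient `g`: the closure of the test functions -/
def H10 {n : ℕ} (G : Set (Eu n)) (v : Eu n → ℝ) (g : Eu n → Eu n) : Prop :=
  MemLp v 2 (vol G) ∧ MemLp g 2 (vol G) ∧
  ∃ φ : ℕ → Eu n → ℝ, (∀ k, TestIn G (φ k)) ∧
    Tendsto (fun k => ∫ x, (φ k x - v x) ^ 2 ∂vol G) atTop (𝓝 0) ∧
    Tendsto (fun k => ∫ x, ‖gradient (φ k) x - g x‖ ^ 2 ∂vol G) atTop (𝓝 0)

/-- `v ∈ H¹₀(G)` (with gradient `g`) is a weak solution of `-Δ v = l v` in `G` -/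
def Eig {n : ℕ} (G : Set (Eu n)) (l : ℝ) (v : Eu n → ℝ) (g : Eu n → Eu n) : Prop :=
  H10 G v g ∧ ∀ φ, TestIn G φ →
    ∫ x, ⟪g x, gradient φ x⟫_ℝ ∂vol G = l * ∫ x, v x * φ x ∂vol G

/-- `e` is an orthonormal basis of `L²(G)` of eigenfunctions of the Dirichlet Laplacian, with the
eigenvalues `lam j > 0` -/
def IsDirichletBasis {n : ℕ} (G : Set (Eu n)) (lam : ℕ → ℝ) (e : HilbertBasis ℕ ℝ (HG G)) : Prop :=
  (∀ j, 0 < lam j) ∧ ∀ j, ∃ g : Eu n → Eu n, Eig G (lam j) (fn (e j)) g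

/-- the coefficient `⟪e j, y(T)⟫` of the (mild) solution of `y' + a A^γ y = u`, `y(0) = y₀` -/
noncomputable def coef {n : ℕ} {G : Set (Eu n)} (lam : ℕ → ℝ) (e : HilbertBasis ℕ ℝ (HG G))
    (γ T a : ℝ) (y₀ : HG G) (u : ℝ → HG G) (j : ℕ) : ℝ :=
  Real.exp (-(a * lam j ^ γ * T)) * ⟪e j, y₀⟫_ℝ +
    ∫ τ in (0 : ℝ)..T, Real.exp (-(a * lam j ^ γ * (T - τ))) * ⟪e j, u τ⟫_ℝ

/-- the control `u ∈ L²(0, T; L²(G₀))` makes the mean of `y(T, ·; y₀)` vanish -/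
def Steers {n : ℕ} {G : Set (Eu n)} (G₀ : Set (Eu n)) (lam : ℕ → ℝ) (e : HilbertBasis ℕ ℝ (HG G))
    (T γ : ℝ) {Ω : Type} [MeasurableSpace Ω] (P : Measure Ω) (α : Ω → ℝ) (y₀ : HG G)
    (u : ℝ → HG G) : Prop :=
  MemLp u 2 (volume.restrict (Icc 0 T)) ∧
  (∀ᵐ τ ∂(volume.restrict (Icc 0 T)), ∀ᵐ x ∂vol G, x ∉ G₀ → fn (u τ) x = 0) ∧
  ∀ j, ∫ o, coef lam e γ T (α o) y₀ u j ∂P = 0

/-- null controllability in average: a constant `C` such that every `y₀ ∈ L²(G)` has a control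
`u ∈ L²(0, T; L²(G₀))` with `‖u‖ ≤ C ‖y₀‖` for which the mean of `y(T, ·; y₀)` vanishes -/
def NullControllableInAverage {n : ℕ} {G : Set (Eu n)} (G₀ : Set (Eu n)) (lam : ℕ → ℝ)
    (e : HilbertBasis ℕ ℝ (HG G)) (T γ : ℝ) {Ω : Type} [MeasurableSpace Ω] (P : Measure Ω)
    (α : Ω → ℝ) : Prop :=
  ∃ C : ℝ, 0 < C ∧ ∀ y₀ : HG G, ∃ u : ℝ → HG G, Steers G₀ lam e T γ P α y₀ u ∧
    ∫ τ in Icc 0 T, ‖u τ‖ ^ 2 ≤ (C * ‖y₀‖) ^ 2

/-- For all `G`, `G₀`, `T` as in the question, all random variables `α ≥ 0` and all `γ ∈ (0, 1/2]`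
the system is not null controllable in average. Moreover there is an eigenfunction `e j₀`, the same
for all these `α` and `γ`, for which there is no control at all, whatever its norm. -/
theorem result {n : ℕ} (G G₀ : Set (Eu n)) (hG : IsOpen G) (hb : Bornology.IsBounded G)
    (hG₀ : IsOpen G₀) (hsub : G₀ ⊆ G) (hint : (interior (G \ closure G₀)).Nonempty)
    (lam : ℕ → ℝ) (e : HilbertBasis ℕ ℝ (HG G)) (he : IsDirichletBasis G lam e) (T : ℝ)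
    (hT : 0 < T) :
    ∃ j₀ : ℕ, ∀ {Ω : Type} [MeasurableSpace Ω] (P : Measure Ω) [IsProbabilityMeasure P]
      (α : Ω → ℝ), AEMeasurable α P → (∀ o, 0 ≤ α o) → ∀ γ : ℝ, 0 < γ → γ ≤ 1 / 2 →
      ¬ NullControllableInAverage G₀ lam e T γ P α ∧
        ∀ u : ℝ → HG G, ¬ Steers G₀ lam e T γ P α (e j₀) u := by
  have he' : Pool.Agent.Q62.AV.DirBasis G lam e := he
  obtain ⟨j₀, hj⟩ := Pool.Agent.Q62.AV.all G G₀ hG hb hG₀ hsub hint lam e he' T hT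
  refine ⟨j₀, ?_⟩
  intro Ω _ P _ α hα hα0 γ h0 h1
  have key : ∀ u : ℝ → HG G, ¬ Steers G₀ lam e T γ P α (e j₀) u := fun u hu =>
    hj P α hα hα0 γ h0 h1 ⟨u, hu.1, hu.2.1, hu.2.2⟩
  refine ⟨?_, key⟩
  rintro ⟨C, _, hC⟩
  obtain ⟨u, hu, _⟩ := hC (e j₀)
  exact key u hu

end Pool.Agent.Results.MP_966485_an.NoAveragedControl
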